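import Mathlib

set_option autoImplicit false

namespace Pool.Agent.SqFree

variable {V : Type*} (H : SimpleGraph V) [LinearOrder V]

/-- oriented edges, smaller end first -/
abbrev Ed : Type _ := {p : V × V // H.Adj p.1 p.2 ∧ p.1 < p.2}

open Classical in
/-- label of the directed edge `a → b` in the free group on the edges -/
noncomputable def lab (a b : V) : FreeGroup (Ed H) :=
  if h : H.Adj a b ∧ a < b then FreeGroup.of ⟨(a, b), h⟩
  else if h : H.Adj b a ∧ b < a then (FreeGroup.of ⟨(b, a), h⟩)⁻¹ else 1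

lemma lab_symm (a b : V) : lab H a b * lab H b a = 1 := by
  unfold lab
  by_cases h1 : H.Adj a b ∧ a < b
  · have h2 : ¬ (H.Adj b a ∧ b < a) := fun h => absurd h.2 (not_lt.2 h1.2.le)
    rw [dif_pos h1, dif_neg h2, dif_pos h1]
    simp
  · by_cases h2 : H.Adj b a ∧ b < a
    · rw [dif_neg h1, dif_pos h2, dif_pos h2]
      simp
    · rw [dif_neg h1, dif_neg h2, dif_neg h2, dif_neg h1]
      simp

lemma lab_norm {a b : V} (h : H.Adj a b) : (lab H a b).norm = 1 := by
  unfold lab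
  rcases lt_or_gt_of_ne h.ne with h1 | h1
  · rw [dif_pos ⟨h, h1⟩]; simp
  · rw [dif_neg (fun hh => absurd hh.2 (not_lt.2 h1.le)), dif_pos ⟨h.symm, h1⟩]
    rw [FreeGroup.norm_inv_eq]; simp

/-- boundary against a potential -/
def bd (φ : V → ℤ) : FreeGroup (Ed H) →* Multiplicative ℤ :=
  FreeGroup.lift (fun e => Multiplicative.ofAdd (φ e.1.2 - φ e.1.1))

lemma bd_lab (φ : V → ℤ) {a b : V} (h : H.Adj a b) :
    bd H φ (lab H a b) = Multiplicative.ofAdd (φ b - φ a) := by
  unfold lab bd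
  rcases lt_or_gt_of_ne h.ne with h1 | h1
  · rw [dif_pos ⟨h, h1⟩]; simp
  · rw [dif_neg (fun hh => absurd hh.2 (not_lt.2 h1.le)), dif_pos ⟨h.symm, h1⟩]
    rw [_root_.map_inv, FreeGroup.lift_apply_of, ← ofAdd_neg]
    congr 1
    ring

end Pool.Agent.SqFree
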