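import Mathlib
import Pool.Agent.Lib.MP_cbd4b2_an.SqLab

set_option autoImplicit false

namespace Pool.Agent.SqFree

open SimpleGraph

variable {V : Type*} (H : SimpleGraph V) [LinearOrder V]

/-- label of a walk -/
noncomputable def wl : {a b : V} → H.Walk a b → FreeGroup (Ed H)
  | _, _, Walk.nil => 1
  | a, _, Walk.cons (v := v) _ p => lab H a v * wl p

@[simp] lemma wl_nil (a : V) : wl H (Walk.nil : H.Walk a a) = 1 := by rw [wl]

@[simp] lemma wl_cons {a b d : V} (h : H.Adj a b) (p : H.Walk b d) :
    wl H (Walk.cons h p) = lab H a b * wl H p := by rw [wl]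

lemma wl_append {a b d : V} (p : H.Walk a b) (q : H.Walk b d) :
    wl H (p.append q) = wl H p * wl H q := by
  induction p with
  | nil => simp
  | cons h p ih => rw [Walk.cons_append, wl_cons, wl_cons, ih, mul_assoc]

lemma lab_inv (a b : V) : lab H b a = (lab H a b)⁻¹ := (inv_eq_of_mul_eq_one_right (lab_symm H a b)).symm

lemma wl_reverse {a b : V} (p : H.Walk a b) : wl H p.reverse = (wl H p)⁻¹ := by
  induction p with
  | nil => simp
  | cons h p ih =>
    rw [Walk.reverse_cons, wl_append, ih, wl_cons, wl_cons, wl_nil, mul_one, mul_inv_rev, lab_inv]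

lemma bd_wl (φ : V → ℤ) {a b : V} (p : H.Walk a b) :
    bd H φ (wl H p) = Multiplicative.ofAdd (φ b - φ a) := by
  induction p with
  | nil => simp
  | cons h p ih =>
    rw [wl_cons, _root_.map_mul, bd_lab H φ h, ih, ← ofAdd_add]
    congr 1
    ring

omit [LinearOrder V] in
lemma not_path_split {a b : V} (q : H.Walk a b) (hq : ¬ q.IsPath) :
    ∃ (x : V) (q1 : H.Walk a x) (q2 : H.Walk x x) (q3 : H.Walk x b),
      q = q1.append (q2.append q3) ∧ 0 < q2.length := by
  classical
  induction q with
  | nil => exact absurd Walk.IsPath.nil hq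
  | @cons u v w h p ih =>
    by_cases hp : p.IsPath
    · have hmem : u ∈ p.support := by
        by_contra hcon
        exact hq (by rw [Walk.cons_isPath_iff]; exact ⟨hp, hcon⟩)
      refine ⟨u, Walk.nil, Walk.cons h (p.takeUntil u hmem), p.dropUntil u hmem, ?_, ?_⟩
      · rw [Walk.nil_append, Walk.cons_append, Walk.take_spec]
      · simp
    · obtain ⟨x, q1, q2, q3, he, hlen⟩ := ih hp
      exact ⟨x, Walk.cons h q1, q2, q3, by rw [Walk.cons_append, ← he], hlen⟩

lemma wl_back {u v : V} (h : H.Adj v u) (q : H.Walk u v) (hq : q.IsPath)
    (hmem : s(v, u) ∈ q.edges) : wl H (Walk.cons h q) = 1 := by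
  cases q with
  | nil => exact absurd rfl h.ne
  | @cons _ x _ h' q' =>
    rw [Walk.cons_isPath_iff] at hq
    rw [Walk.edges_cons, List.mem_cons] at hmem
    rcases hmem with hmem | hmem
    · have hx : x = v := by
        rw [Sym2.eq_iff] at hmem
        rcases hmem with ⟨h1, h2⟩ | ⟨h1, h2⟩
        · exact absurd h1 h.ne
        · exact h1.symm
      subst hx
      have : q' = Walk.nil := Walk.eq_nil_iff_nil.2 (Walk.isPath_iff_nil.1 hq.1)
      subst this
      rw [wl_cons, wl_cons, wl_nil, mul_one, lab_symm]
    · exact absurd (Walk.snd_mem_support_of_mem_edges _ hmem) hq.2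

/-- short closed walks of even length are contractible -/
lemma contractible (ρ : ℕ)
    (hE : ∀ (v : V) (p : H.Walk v v), p.IsCycle → Even p.length → 4 * ρ < p.length)
    (hO : ∀ (v : V) (p : H.Walk v v), Odd p.length → 2 * ρ < p.length) :
    ∀ (n : ℕ), n ≤ 4 * ρ → Even n → ∀ (v : V) (p : H.Walk v v), p.length = n → wl H p = 1 := by
  intro n
  induction n using Nat.strong_induction_on with
  | _ n ih =>
    intro hn hev v p hp
    cases p with
    | nil => simp
    | @cons _ u _ h q =>
      rw [Walk.length_cons] at hp
      by_cases hq : q.IsPath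
      · by_cases hmem : s(v, u) ∈ q.edges
        · exact wl_back H h q hq hmem
        · exfalso
          have hc : (Walk.cons h q).IsCycle := (Walk.cons_isCycle_iff q h).2 ⟨hq, hmem⟩
          have := hE _ _ hc (by rw [Walk.length_cons, hp]; exact hev)
          rw [Walk.length_cons] at this
          omega
      · obtain ⟨x, q1, q2, q3, he, hlen⟩ := not_path_split H q hq
        have hlen2 : q.length = q1.length + (q2.length + q3.length) := by
          rw [he, Walk.length_append, Walk.length_append]
        have e1 : wl H (Walk.cons h q) = wl H (Walk.cons h q1) * wl H q2 * wl H q3 := by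
          rw [he, wl_cons, wl_append, wl_append, wl_cons]
          group
        have e2 : wl H ((Walk.cons h q1).append q3) = wl H (Walk.cons h q1) * wl H q3 :=
          wl_append H _ _
        have hl3 : ((Walk.cons h q1).append q3).length = n - q2.length := by
          rw [Walk.length_append, Walk.length_cons]; omega
        by_cases h2 : Even q2.length
        · have i1 := ih q2.length (by omega) (by omega) h2 x q2 rfl
          have i2 := ih (n - q2.length) (by omega) (by omega) (by
            rw [Nat.even_sub (by omega)]
            exact iff_of_true hev h2) v _ hl3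
          rw [e1, i1, mul_one, ← e2, i2]
        · exfalso
          rw [Nat.not_even_iff_odd] at h2
          have o1 := hO x q2 h2
          have o2 := hO v ((Walk.cons h q1).append q3) (by
            rw [hl3]
            exact Nat.Even.sub_odd (by omega) hev h2)
          rw [hl3] at o2
          omega

end Pool.Agent.SqFree
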