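import Mathlib

set_option autoImplicit false

namespace Pool.Agent.SqFree

universe u

/-- a commutative subgroup of a free group is cyclic -/
lemma comm_subgroup_cyclic {α : Type u} (Λ : Subgroup (FreeGroup α))
    (hΛ : ∀ a ∈ Λ, ∀ b ∈ Λ, a * b = b * a) : ∃ g ∈ Λ, ∀ a ∈ Λ, ∃ j : ℤ, a = g ^ j := by
  classical
  have hfree : IsFreeGroup Λ := inferInstance
  let e : Λ ≃* FreeGroup (IsFreeGroup.Generators Λ) := IsFreeGroup.toFreeGroup Λ
  have hcomm : ∀ a b : Λ, a * b = b * a := fun a b => Subtype.ext (hΛ _ a.2 _ b.2)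
  have hsub : Subsingleton (IsFreeGroup.Generators Λ) := by
    constructor
    intro x y
    by_contra hne
    have h1 : e.symm (FreeGroup.of x) * e.symm (FreeGroup.of y) =
        e.symm (FreeGroup.of y) * e.symm (FreeGroup.of x) := hcomm _ _
    rw [← _root_.map_mul, ← _root_.map_mul] at h1
    have h2 := e.symm.injective h1
    -- map to S_3-like: use words
    have h3 := congrArg FreeGroup.toWord h2
    rw [show (FreeGroup.of x : FreeGroup (IsFreeGroup.Generators Λ)) * FreeGroup.of y =
      FreeGroup.mk [(x, true), (y, true)] from by simp [FreeGroup.of, FreeGroup.mul_mk],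
      show (FreeGroup.of y : FreeGroup (IsFreeGroup.Generators Λ)) * FreeGroup.of x =
      FreeGroup.mk [(y, true), (x, true)] from by simp [FreeGroup.of, FreeGroup.mul_mk]] at h3
    rw [FreeGroup.toWord_mk, FreeGroup.toWord_mk] at h3
    have hne' : y ≠ x := fun h => hne h.symm
    simp [FreeGroup.reduce, hne, hne'] at h3
  rcases isEmpty_or_nonempty (IsFreeGroup.Generators Λ) with hE | ⟨⟨x⟩⟩
  · refine ⟨1, one_mem _, fun a ha => ⟨0, ?_⟩⟩
    have : e ⟨a, ha⟩ = e 1 := Subsingleton.elim _ _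
    have := e.injective this
    simpa using congrArg Subtype.val this
  · let _ : Unique (IsFreeGroup.Generators Λ) := ⟨⟨x⟩, fun y => Subsingleton.elim _ _⟩
    obtain ⟨g, hg⟩ := IsCyclic.exists_generator (α := FreeGroup (IsFreeGroup.Generators Λ))
    refine ⟨(e.symm g : FreeGroup α), (e.symm g).2, fun a ha => ?_⟩
    obtain ⟨j, hj⟩ := Subgroup.mem_zpowers_iff.1 (hg (e ⟨a, ha⟩))
    refine ⟨j, ?_⟩
    have h1 : (⟨a, ha⟩ : Λ) = (e.symm g) ^ j := by
      rw [← map_zpow, hj, e.symm_apply_apply]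
    simpa using congrArg Subtype.val h1

end Pool.Agent.SqFree
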