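import Mathlib
import Pool.Agent.Lib.MP_cbd4b2_an.PwWalk
import Pool.Agent.Lib.MP_cbd4b2_an.SqCyc

set_option autoImplicit false

namespace Pool.Agent.SqFree

open SimpleGraph

variable {V : Type*} (H : SimpleGraph V) [LinearOrder V]

open Classical in
/-- label of a walk of length `ρ` between two vertices -/
noncomputable def pl (ρ : ℕ) (a b : V) : FreeGroup (Ed H) :=
  if h : ∃ p : H.Walk a b, p.length = ρ then wl H h.choose else 1

lemma pl_spec {ρ : ℕ} {a b : V} (h : ∃ p : H.Walk a b, p.length = ρ) :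
    ∃ p : H.Walk a b, p.length = ρ ∧ pl H ρ a b = wl H p := by
  refine ⟨h.choose, h.choose_spec, ?_⟩
  rw [pl, dif_pos h]

/-- one step in the covering graph -/
noncomputable def pstep (ρ : ℕ) (c : ℤ → V) (s : ℤ) : Equiv.Perm (ℤ × FreeGroup (Ed H)) where
  toFun p := (p.1 + s, p.2 * pl H ρ (c p.1) (c (p.1 + s)))
  invFun p := (p.1 - s, p.2 * (pl H ρ (c (p.1 - s)) (c p.1))⁻¹)
  left_inv p := by
    ext1
    · simp
    · simp only [add_sub_cancel_right]
      rw [mul_assoc, mul_inv_cancel, mul_one]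
  right_inv p := by
    ext1
    · simp
    · simp only [sub_add_cancel]
      rw [mul_assoc, inv_mul_cancel, mul_one]

lemma pstep_comm (ρ : ℕ)
    (hE : ∀ (v : V) (p : H.Walk v v), p.IsCycle → Even p.length → 4 * ρ < p.length)
    (hO : ∀ (v : V) (p : H.Walk v v), Odd p.length → 2 * ρ < p.length)
    (c : ℤ → V) (S : Set ℤ) (hc : ∀ x, ∀ s ∈ S, ∃ p : H.Walk (c x) (c (x + s)), p.length = ρ)
    {s t : ℤ} (hs : s ∈ S) (ht : t ∈ S) :
    pstep H ρ c s * pstep H ρ c t = pstep H ρ c t * pstep H ρ c s := by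
  ext1 p
  obtain ⟨n, w⟩ := p
  simp only [Equiv.Perm.mul_apply]
  change ((n + t) + s, w * pl H ρ (c n) (c (n + t)) * pl H ρ (c (n + t)) (c (n + t + s))) =
    ((n + s) + t, w * pl H ρ (c n) (c (n + s)) * pl H ρ (c (n + s)) (c (n + s + t)))
  have e1 : n + t + s = n + s + t := by ring
  rw [e1]
  congr 1
  rw [mul_assoc, mul_assoc]
  congr 1
  have h4 := hc (n + t) s hs
  rw [e1] at h4
  obtain ⟨p1, l1, w1⟩ := pl_spec H (hc n s hs)
  obtain ⟨p2, l2, w2⟩ := pl_spec H (hc (n + s) t ht)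
  obtain ⟨p3, l3, w3⟩ := pl_spec H (hc n t ht)
  obtain ⟨p4, l4, w4⟩ := pl_spec H h4
  rw [w1, w2, w3, w4]
  have hcl := contractible H ρ hE hO (4 * ρ) le_rfl ⟨2 * ρ, by ring⟩ (c n)
    ((p3.append p4).append (p1.append p2).reverse) (by
      rw [Walk.length_append, Walk.length_append, Walk.length_reverse, Walk.length_append]
      omega)
  rw [wl_append, wl_append, wl_reverse, wl_append, mul_inv_eq_one] at hcl
  exact hcl

/-- the structure of the group generated by the steps -/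
lemma pclosure_spec (ρ : ℕ) (c : ℤ → V) (S : Set ℤ) (σ : Equiv.Perm (ℤ × FreeGroup (Ed H)))
    (hσ : σ ∈ Subgroup.closure (pstep H ρ c '' S)) :
    ∃ t : ℤ, ∃ f : ℤ → FreeGroup (Ed H), ∀ n w, σ (n, w) = (n + t, w * f n) := by
  induction hσ using Subgroup.closure_induction with
  | mem x hx =>
    obtain ⟨s, hs, rfl⟩ := hx
    exact ⟨s, fun n => pl H ρ (c n) (c (n + s)), fun n w => rfl⟩
  | one => exact ⟨0, fun _ => 1, fun n w => by simp⟩
  | mul x y _ _ hx hy =>
    obtain ⟨t, f, h⟩ := hx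
    obtain ⟨t', f', h'⟩ := hy
    refine ⟨t' + t, fun n => f' n * f (n + t'), fun n w => ?_⟩
    rw [Equiv.Perm.mul_apply, h', h]
    rw [add_assoc, mul_assoc]
  | inv x _ hx =>
    obtain ⟨t, f, h⟩ := hx
    refine ⟨-t, fun n => (f (n - t))⁻¹, fun n w => ?_⟩
    rw [Equiv.Perm.inv_eq_iff_eq, h]
    simp [sub_eq_add_neg]

lemma pclosure_bd (ρ : ℕ) (c : ℤ → V) (S : Set ℤ)
    (hc : ∀ x, ∀ s ∈ S, ∃ p : H.Walk (c x) (c (x + s)), p.length = ρ)
    (φ : V → ℤ) (σ : Equiv.Perm (ℤ × FreeGroup (Ed H)))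
    (hσ : σ ∈ Subgroup.closure (pstep H ρ c '' S)) :
    ∀ p, bd H φ (σ p).2 = bd H φ p.2 * Multiplicative.ofAdd (φ (c (σ p).1) - φ (c p.1)) := by
  induction hσ using Subgroup.closure_induction with
  | mem x hx =>
    obtain ⟨s, hs, rfl⟩ := hx
    intro p
    change bd H φ (p.2 * pl H ρ (c p.1) (c (p.1 + s))) = _
    obtain ⟨q, -, hq⟩ := pl_spec H (hc p.1 s hs)
    rw [_root_.map_mul, hq, bd_wl]
    rfl
  | one => intro p; simp
  | mul x y _ _ hx hy =>
    intro p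
    rw [Equiv.Perm.mul_apply, hx, hy, mul_assoc, ← ofAdd_add]
    congr 2
    ring
  | inv x _ hx =>
    intro p
    have := hx (x⁻¹ p)
    rw [show x (x⁻¹ p) = p from Equiv.apply_symm_apply x p] at this
    rw [this, mul_assoc, ← ofAdd_add]
    simp

open Classical in
/-- from the tree-valued covering to a labelling of the integers by a cyclic group -/
lemma plabelling (ρ : ℕ)
    (hE : ∀ (v : V) (p : H.Walk v v), p.IsCycle → Even p.length → 4 * ρ < p.length)
    (hO : ∀ (v : V) (p : H.Walk v v), Odd p.length → 2 * ρ < p.length)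
    (c : ℤ → V) (S : Set ℤ) (hc : ∀ x, ∀ s ∈ S, ∃ p : H.Walk (c x) (c (x + s)), p.length = ρ) :
    ∃ g : FreeGroup (Ed H), (∀ φ : V → ℤ, bd H φ g = 1) ∧
      ∀ (M : ℕ) (u : FreeGroup (Ed H) → ZMod M), (∀ w, u (g * w) = u w) →
        (∀ (w : FreeGroup (Ed H)) (a b : V) (p : H.Walk a b), p.length = ρ →
          ∃ j : ℤ, Odd j ∧ |j| ≤ ρ ∧ u (w * wl H p) = u w + j) →
        ∃ U : ℤ → ZMod M, ∀ x, ∀ s ∈ S, ∃ j : ℤ, Odd j ∧ |j| ≤ ρ ∧ U (x + s) = U x + j := by
  set G := Subgroup.closure (pstep H ρ c '' S) with hG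
  have hcomm : ∀ σ ∈ G, ∀ τ ∈ G, σ * τ = τ * σ := by
    have hk : ∀ x ∈ pstep H ρ c '' S, ∀ y ∈ pstep H ρ c '' S, x * y = y * x := by
      rintro _ ⟨s, hs, rfl⟩ _ ⟨t, ht, rfl⟩
      exact pstep_comm H ρ hE hO c S hc hs ht
    intro σ hσ τ hτ
    have := (Subgroup.isMulCommutative_closure hk).is_comm.comm ⟨σ, hσ⟩ ⟨τ, hτ⟩
    exact congrArg Subtype.val this
  -- the group of deck transformations
  let Λ : Subgroup (FreeGroup (Ed H)) :=
    { carrier := {γ | ∃ σ ∈ G, σ (0, 1) = (0, γ)}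
      one_mem' := ⟨1, one_mem _, rfl⟩
      mul_mem' := by
        rintro γ γ' ⟨σ, hσ, h⟩ ⟨σ', hσ', h'⟩
        refine ⟨σ' * σ, mul_mem hσ' hσ, ?_⟩
        obtain ⟨t', f', hf'⟩ := pclosure_spec H ρ c S σ' hσ'
        have e := hf' 0 1
        rw [h'] at e
        rw [Equiv.Perm.mul_apply, h, hf']
        simp only [Prod.mk.injEq, one_mul] at e
        rw [← e.1, ← e.2]
      inv_mem' := by
        rintro γ ⟨σ, hσ, h⟩
        refine ⟨σ⁻¹, inv_mem hσ, ?_⟩
        obtain ⟨t, f, hf⟩ := pclosure_spec H ρ c S σ hσ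
        have e := hf 0 1
        rw [h] at e
        simp only [Prod.mk.injEq, one_mul] at e
        rw [Equiv.Perm.inv_eq_iff_eq, hf, ← e.1, ← e.2, inv_mul_cancel] }
  have hΛ : ∀ γ, γ ∈ Λ ↔ ∃ σ ∈ G, σ (0, 1) = (0, γ) := fun γ => Iff.rfl
  have hΛc : ∀ a ∈ Λ, ∀ b ∈ Λ, a * b = b * a := by
    rintro a ⟨σ, hσ, h⟩ b ⟨σ', hσ', h'⟩
    obtain ⟨t, f, hf⟩ := pclosure_spec H ρ c S σ hσ
    obtain ⟨t', f', hf'⟩ := pclosure_spec H ρ c S σ' hσ'
    have e := hf 0 1
    have e' := hf' 0 1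
    rw [h] at e
    rw [h'] at e'
    simp only [Prod.mk.injEq, one_mul] at e e'
    have h1 : (σ * σ') (0, 1) = (0, b * a) := by
      rw [Equiv.Perm.mul_apply, h', hf, ← e.1, ← e.2]
    have h2 : (σ' * σ) (0, 1) = (0, a * b) := by
      rw [Equiv.Perm.mul_apply, h, hf', ← e'.1, ← e'.2]
    rw [hcomm σ hσ σ' hσ'] at h1
    rw [h1] at h2
    exact (congrArg Prod.snd h2).symm
  obtain ⟨g, hgΛ, hgen⟩ := comm_subgroup_cyclic Λ hΛc
  refine ⟨g, ?_, ?_⟩
  · intro φ
    obtain ⟨σ, hσ, h⟩ := (hΛ g).1 hgΛ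
    have := pclosure_bd H ρ c S hc φ σ hσ (0, 1)
    rw [h] at this
    simpa using this
  · intro M u hu1 hu2
    have hu1z : ∀ (j : ℤ) w, u (g ^ j * w) = u w := by
      have hn : ∀ (n : ℕ) w, u (g ^ n * w) = u w := by
        intro n
        induction n with
        | zero => intro w; simp
        | succ n ih => intro w; rw [pow_succ, mul_assoc, ih, hu1]
      intro j w
      obtain ⟨n, rfl | rfl⟩ := j.eq_nat_or_neg
      · rw [zpow_natCast]; exact hn n w
      · rw [zpow_neg, zpow_natCast]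
        have := hn n ((g ^ n)⁻¹ * w)
        rw [mul_inv_cancel_left] at this
        exact this.symm
    -- reachable integers
    let DD : AddSubgroup ℤ :=
      { carrier := {n | ∃ w, ∃ σ ∈ G, σ (0, 1) = (n, w)}
        zero_mem' := ⟨1, 1, one_mem _, rfl⟩
        add_mem' := by
          rintro n n' ⟨w, σ, hσ, h⟩ ⟨w', σ', hσ', h'⟩
          obtain ⟨t, f, hf⟩ := pclosure_spec H ρ c S σ hσ
          have e := hf 0 1
          rw [h] at e
          simp only [Prod.mk.injEq, one_mul, zero_add] at e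
          refine ⟨w' * f n', σ * σ', mul_mem hσ hσ', ?_⟩
          rw [Equiv.Perm.mul_apply, h', hf, ← e.1, add_comm n n']
        neg_mem' := by
          rintro n ⟨w, σ, hσ, h⟩
          obtain ⟨t, f, hf⟩ := pclosure_spec H ρ c S σ⁻¹ (inv_mem hσ)
          have h2 := hf n w
          rw [← h, Equiv.Perm.inv_def, Equiv.symm_apply_apply] at h2
          simp only [Prod.mk.injEq] at h2
          refine ⟨1 * f 0, σ⁻¹, inv_mem hσ, ?_⟩
          rw [hf]
          congr 1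
          omega }
    have hDD : ∀ n, n ∈ DD ↔ ∃ w, ∃ σ ∈ G, σ (0, 1) = (n, w) := fun n => Iff.rfl
    have hSD : ∀ s ∈ S, s ∈ DD := by
      intro s hs
      refine ⟨1 * pl H ρ (c 0) (c (0 + s)), pstep H ρ c s, Subgroup.subset_closure ⟨s, hs, rfl⟩, ?_⟩
      change (0 + s, 1 * pl H ρ (c 0) (c (0 + s))) = _
      rw [zero_add]
    let W : ℤ → FreeGroup (Ed H) := fun n =>
      if h : ∃ w, ∃ σ ∈ G, σ (0, 1) = (n, w) then h.choose else 1
    have hW : ∀ n ∈ DD, ∃ σ ∈ G, σ (0, 1) = (n, W n) := by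
      intro n hn
      have h := (hDD n).1 hn
      have : W n = h.choose := dif_pos h
      rw [this]
      exact h.choose_spec
    have hstep : ∀ n ∈ DD, ∀ s ∈ S, ∃ j : ℤ, Odd j ∧ |j| ≤ ρ ∧
        u (W (n + s)) = u (W n) + j := by
      intro n hn s hs
      obtain ⟨σ, hσ, h⟩ := hW n hn
      obtain ⟨σ', hσ', h'⟩ := hW (n + s) (DD.add_mem hn (hSD s hs))
      set y := pl H ρ (c n) (c (n + s)) with hy
      have hτ : pstep H ρ c s * σ ∈ G := mul_mem (Subgroup.subset_closure ⟨s, hs, rfl⟩) hσ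
      have h2 : (pstep H ρ c s * σ) (0, 1) = (n + s, W n * y) := by
        rw [Equiv.Perm.mul_apply, h]; rfl
      have hγ : W (n + s) * (W n * y)⁻¹ ∈ Λ := by
        obtain ⟨t, f, hf⟩ := pclosure_spec H ρ c S _ hτ
        have e := hf 0 1
        rw [h2] at e
        simp only [Prod.mk.injEq, one_mul, zero_add] at e
        refine ⟨(pstep H ρ c s * σ)⁻¹ * σ', mul_mem (inv_mem hτ) hσ', ?_⟩
        rw [Equiv.Perm.mul_apply, h', Equiv.Perm.inv_eq_iff_eq, hf, ← e.1, ← e.2, zero_add,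
          inv_mul_cancel_right]
      obtain ⟨j, hj⟩ := hgen _ hγ
      have e1 : W (n + s) = g ^ j * (W n * y) := by rw [← hj, inv_mul_cancel_right]
      rw [e1, hu1z]
      obtain ⟨p, hp, hyp⟩ := pl_spec H (hc n s hs)
      rw [hy, hyp]
      exact hu2 _ _ _ p hp
    let r : ℤ → ℤ := fun x => (Quotient.out (QuotientAddGroup.mk x : ℤ ⧸ DD))
    have hr : ∀ x, x - r x ∈ DD := by
      intro x
      have h1 : (QuotientAddGroup.mk (r x) : ℤ ⧸ DD) = QuotientAddGroup.mk x :=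
        QuotientAddGroup.out_eq' _
      have h2 := QuotientAddGroup.eq.1 h1
      rwa [neg_add_eq_sub] at h2
    have hr2 : ∀ x, ∀ s ∈ S, r (x + s) = r x := by
      intro x s hs
      have : (QuotientAddGroup.mk (x + s) : ℤ ⧸ DD) = QuotientAddGroup.mk x := by
        rw [QuotientAddGroup.eq]
        have : -(x + s) + x = -s := by ring
        rw [this]
        exact neg_mem (hSD s hs)
      simp only [r, this]
    refine ⟨fun x => u (W (x - r x)), fun x s hs => ?_⟩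
    simp only
    rw [hr2 x s hs]
    have e : x + s - r x = x - r x + s := by ring
    rw [e]
    exact hstep _ (hr x) s hs

end Pool.Agent.SqFree
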