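import Mathlib

set_option autoImplicit false

namespace Pool.Agent.SqFree

open FreeGroup

variable {α : Type*} [DecidableEq α]

/-- parity of a word -/
def par (α : Type*) : FreeGroup α →* Multiplicative (ZMod 2) :=
  FreeGroup.lift (fun _ => Multiplicative.ofAdd (1 : ZMod 2))

omit [DecidableEq α] in
lemma par_mk (L : List (α × Bool)) :
    par α (FreeGroup.mk L) = Multiplicative.ofAdd ((L.length : ZMod 2)) := by
  induction L with
  | nil => simp [par, ← FreeGroup.one_eq_mk]
  | cons a L ih =>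
    have : FreeGroup.mk (a :: L) = FreeGroup.mk [a] * FreeGroup.mk L := by
      simp [FreeGroup.mul_mk]
    rw [this, _root_.map_mul, ih]
    obtain ⟨x, b⟩ := a
    have h2 : par α (FreeGroup.mk [(x, b)]) = Multiplicative.ofAdd (1 : ZMod 2) := by
      cases b
      · simp only [par, FreeGroup.lift_mk, List.map_cons, List.map_nil, cond_false,
          List.prod_cons, List.prod_nil, mul_one]
        rfl
      · simp [par, FreeGroup.lift_mk]
    rw [h2, ← ofAdd_add]
    congr 1
    push_cast [List.length_cons]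
    ring

lemma par_norm (w : FreeGroup α) : par α w = Multiplicative.ofAdd ((w.norm : ℕ) : ZMod 2) := by
  conv_lhs => rw [← FreeGroup.mk_toWord (x := w)]
  rw [par_mk]
  rfl

lemma norm_mul_letter (w y : FreeGroup α) (hy : y.norm = 1) :
    |((y * w).norm : ℤ) - w.norm| = 1 := by
  have h1 : (y * w).norm ≤ 1 + w.norm := by
    rw [← hy]; exact FreeGroup.norm_mul_le y w
  have h2 : w.norm ≤ 1 + (y * w).norm := by
    have : w = y⁻¹ * (y * w) := by group
    calc w.norm = (y⁻¹ * (y * w)).norm := by rw [← this]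
      _ ≤ y⁻¹.norm + (y * w).norm := FreeGroup.norm_mul_le _ _
      _ = 1 + (y * w).norm := by rw [FreeGroup.norm_inv_eq, hy]
  have h3 : (((y * w).norm : ℕ) : ZMod 2) = ((1 + w.norm : ℕ) : ZMod 2) := by
    have e := par_norm (y * w)
    rw [_root_.map_mul, par_norm y, par_norm w, hy, ← ofAdd_add] at e
    have := Multiplicative.ofAdd.injective e
    rw [← this]
    push_cast
    ring
  rw [ZMod.natCast_eq_natCast_iff'] at h3
  rcases abs_cases (((y * w).norm : ℤ) - w.norm) with h | h <;> omega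

lemma norm_pow_of_cyc {L : List (α × Bool)} (h : FreeGroup.IsCyclicallyReduced L) (N : ℕ) :
    ((FreeGroup.mk L) ^ N).norm = N * L.length := by
  have h1 : (FreeGroup.mk L) ^ N = FreeGroup.mk (List.replicate N L).flatten := by
    rw [FreeGroup.pow_mk]
  rw [h1, FreeGroup.norm, FreeGroup.toWord_mk, (h.flatten_replicate N).isReduced.reduce_eq]
  simp [List.length_flatten]

/-- **Busemann function** of a cyclically reduced word. -/
lemma busemann_cyc {L : List (α × Bool)} (h : FreeGroup.IsCyclicallyReduced L) :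
    ∃ B : FreeGroup α → ℤ, (∀ w y : FreeGroup α, y.norm = 1 → |B (w * y) - B w| = 1) ∧
      ∀ w : FreeGroup α, B (FreeGroup.mk L * w) = B w - L.length := by
  set g := FreeGroup.mk L with hg
  set ℓ := L.length with hℓ
  set u : FreeGroup α → ℕ → ℤ := fun w N => ((w⁻¹ * g ^ N).norm : ℤ) - N * ℓ with hu
  have hgn : g.norm = ℓ := by
    have := norm_pow_of_cyc h 1
    simpa using this
  have hmono : ∀ w N, u w (N + 1) ≤ u w N := by
    intro w N
    simp only [hu]
    have e : w⁻¹ * g ^ (N + 1) = (w⁻¹ * g ^ N) * g := by rw [pow_succ, mul_assoc]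
    have := FreeGroup.norm_mul_le (w⁻¹ * g ^ N) g
    rw [← e, hgn] at this
    have h2 : ((w⁻¹ * g ^ (N + 1)).norm : ℤ) ≤ (w⁻¹ * g ^ N).norm + ℓ := by exact_mod_cast this
    push_cast
    linarith
  have hbd : ∀ w N, -(w.norm : ℤ) ≤ u w N := by
    intro w N
    simp only [hu]
    have e : g ^ N = w * (w⁻¹ * g ^ N) := by group
    have := FreeGroup.norm_mul_le w (w⁻¹ * g ^ N)
    rw [← e, norm_pow_of_cyc h N] at this
    have h2 : ((N * ℓ : ℕ) : ℤ) ≤ w.norm + (w⁻¹ * g ^ N).norm := by exact_mod_cast this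
    push_cast at h2
    linarith
  have hanti : ∀ w, Antitone (u w) := fun w => antitone_nat_of_succ_le (hmono w)
  have hev : ∀ w, ∃ b : ℤ, ∃ N0, ∀ N ≥ N0, u w N = b := by
    intro w
    have hne : (Set.range (u w)).Nonempty := ⟨_, 0, rfl⟩
    obtain ⟨b, ⟨N0, hN0⟩, hb⟩ := Int.exists_least_of_bdd (P := fun z => z ∈ Set.range (u w))
      ⟨-(w.norm : ℤ), by rintro z ⟨N, rfl⟩; exact hbd w N⟩ hne
    refine ⟨b, N0, fun N hN => le_antisymm ?_ (hb _ ⟨N, rfl⟩)⟩
    rw [← hN0]
    exact hanti w hN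
  choose B hB using hev
  refine ⟨B, ?_, ?_⟩
  · intro w y hy
    obtain ⟨N1, h1⟩ := hB w
    obtain ⟨N2, h2⟩ := hB (w * y)
    have e1 := h1 (max N1 N2) (le_max_left _ _)
    have e2 := h2 (max N1 N2) (le_max_right _ _)
    rw [← e1, ← e2]
    simp only [hu]
    have e : (w * y)⁻¹ * g ^ (max N1 N2) = y⁻¹ * (w⁻¹ * g ^ (max N1 N2)) := by group
    rw [e]
    have := norm_mul_letter (w⁻¹ * g ^ (max N1 N2)) y⁻¹ (by rw [FreeGroup.norm_inv_eq, hy])
    rw [← this]
    congr 1
    ring
  · intro w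
    obtain ⟨N1, h1⟩ := hB w
    obtain ⟨N2, h2⟩ := hB (g * w)
    have e1 := h1 (max N1 N2) (le_max_left _ _)
    have e2 := h2 (max N1 N2 + 1) (le_trans (le_max_right _ _) (Nat.le_succ _))
    rw [← e1, ← e2]
    simp only [hu]
    have e : (g * w)⁻¹ * g ^ (max N1 N2 + 1) = w⁻¹ * g ^ (max N1 N2) := by
      rw [pow_succ', mul_inv_rev]; group
    rw [e]
    push_cast
    ring

/-- **Busemann function** for an arbitrary element `g`. -/
lemma busemann (g : FreeGroup α) :
    ∃ (h : FreeGroup α) (L : List (α × Bool)) (B : FreeGroup α → ℤ),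
      g = h * FreeGroup.mk L * h⁻¹ ∧
      (∀ w y : FreeGroup α, y.norm = 1 → |B (w * y) - B w| = 1) ∧
      ∀ w : FreeGroup α, B (g * w) = B w - L.length := by
  have h1 : FreeGroup.IsReduced g.toWord := FreeGroup.isReduced_toWord
  have h2 := FreeGroup.reduceCyclically.isCyclicallyReduced h1
  have h3 := FreeGroup.reduceCyclically.conj_conjugator_reduceCyclically g.toWord
  set L := FreeGroup.reduceCyclically g.toWord with hL
  set C := FreeGroup.reduceCyclically.conjugator g.toWord with hC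
  obtain ⟨B, hB1, hB2⟩ := busemann_cyc h2
  have hg : g = FreeGroup.mk C * FreeGroup.mk L * (FreeGroup.mk C)⁻¹ := by
    conv_lhs => rw [← FreeGroup.mk_toWord (x := g), ← h3]
    rw [FreeGroup.inv_mk, FreeGroup.mul_mk, FreeGroup.mul_mk]
  refine ⟨FreeGroup.mk C, L, fun w => B ((FreeGroup.mk C)⁻¹ * w), hg, ?_, ?_⟩
  · intro w y hy
    simp only
    rw [← mul_assoc]
    exact hB1 _ y hy
  · intro w
    simp only
    rw [← hB2]
    congr 1
    rw [hg]
    group

end Pool.Agent.SqFree
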