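import Mathlib

set_option autoImplicit false

namespace Pool.Agent.SqFree

/-- **Eulerian argument**: a list of directed edges with zero boundary and odd length contains an
odd closed walk of at most that length. -/
lemma euler {V : Type*} (H : SimpleGraph V) (n : ℕ) :
    ∀ (D : List (V × V)), D.length = n → (∀ d ∈ D, H.Adj d.1 d.2) → ∀ (a b : V) (p : H.Walk a b),
      (∀ φ : V → ℤ, (D.map (fun d => φ d.2 - φ d.1)).sum = φ a - φ b) → Odd (n + p.length) →
      ∃ (v : V) (q : H.Walk v v), Odd q.length ∧ q.length ≤ n + p.length := by
  classical
  induction n with
  | zero =>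
    intro D hD hadj a b p hbd hodd
    have hD0 : D = [] := List.length_eq_zero_iff.1 hD
    subst hD0
    have hab : a = b := by
      by_contra hne
      have := hbd (fun v => if v = a then 1 else 0)
      simp [Ne.symm hne] at this
    subst hab
    exact ⟨a, p, by simpa using hodd, by simp⟩
  | succ n ih =>
    intro D hD hadj a b p hbd hodd
    by_cases hab : a = b
    · subst hab
      by_cases hp : Odd p.length
      · exact ⟨a, p, hp, by omega⟩
      · obtain ⟨d, hd⟩ : ∃ d, d ∈ D := by
          rcases D with _ | ⟨d, D⟩
          · simp at hD
          · exact ⟨d, by simp⟩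
        have hperm := List.perm_cons_erase hd
        have hlen : (D.erase d).length = n := by
          rw [List.length_erase_of_mem hd, hD]; rfl
        obtain ⟨v, q, hq1, hq2⟩ := ih (D.erase d) hlen
          (fun x hx => hadj x (List.mem_of_mem_erase hx)) d.1 d.2
          (SimpleGraph.Walk.cons (hadj d hd) SimpleGraph.Walk.nil) (by
            intro φ
            have h1 := hbd φ
            rw [(hperm.map _).sum_eq, List.map_cons, List.sum_cons] at h1
            linarith) (by
            rw [SimpleGraph.Walk.length_cons, SimpleGraph.Walk.length_nil]
            rw [Nat.odd_iff] at hodd hp ⊢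
            omega)
        refine ⟨v, q, hq1, ?_⟩
        rw [SimpleGraph.Walk.length_cons, SimpleGraph.Walk.length_nil] at hq2
        omega
    · obtain ⟨d, hd, hdb⟩ : ∃ d ∈ D, d.1 = b := by
        by_contra hcon
        push Not at hcon
        have h1 := hbd (fun v => if v = b then 1 else 0)
        simp only [hab, if_false, if_true] at h1
        have h2 : 0 ≤ (D.map (fun d : V × V => (if d.2 = b then (1 : ℤ) else 0) -
            (if d.1 = b then 1 else 0))).sum := by
          apply List.sum_nonneg
          intro x hx
          obtain ⟨d, hd, rfl⟩ := List.mem_map.1 hx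
          rw [if_neg (hcon d hd)]
          split <;> simp
        omega
      have hperm := List.perm_cons_erase hd
      have hlen : (D.erase d).length = n := by
        rw [List.length_erase_of_mem hd, hD]; rfl
      have hstep : H.Adj b d.2 := hdb ▸ hadj d hd
      obtain ⟨v, q, hq1, hq2⟩ := ih (D.erase d) hlen
        (fun x hx => hadj x (List.mem_of_mem_erase hx)) a d.2 (p.concat hstep) (by
          intro φ
          have h1 := hbd φ
          rw [(hperm.map _).sum_eq, List.map_cons, List.sum_cons, hdb] at h1
          linarith) (by
          rw [SimpleGraph.Walk.length_concat]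
          rw [Nat.odd_iff] at hodd ⊢
          omega)
      refine ⟨v, q, hq1, ?_⟩
      rw [SimpleGraph.Walk.length_concat] at hq2
      omega

end Pool.Agent.SqFree
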