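import Mathlib
import Pool.Agent.Lib.MP_cbd4b2_an.PwStep
import Pool.Agent.Lib.MP_cbd4b2_an.SqBus
import Pool.Agent.Lib.MP_cbd4b2_an.SqEul
import Pool.Agent.Results.MP_cbd4b2_an.ThreeColours

set_option autoImplicit false

namespace Pool.Agent.SqFree

open SimpleGraph

lemma bd_mk {V : Type*} (H : SimpleGraph V) [LinearOrder V] (φ : V → ℤ)
    (L : List (Ed H × Bool)) :
    bd H φ (FreeGroup.mk L) = Multiplicative.ofAdd ((L.map (fun e =>
      φ (if e.2 then (e.1.1.1, e.1.1.2) else (e.1.1.2, e.1.1.1) : V × V).2 -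
      φ (if e.2 then (e.1.1.1, e.1.1.2) else (e.1.1.2, e.1.1.1) : V × V).1)).sum) := by
  induction L with
  | nil => simp [bd, ← FreeGroup.one_eq_mk]
  | cons a L ih =>
    have : FreeGroup.mk (a :: L) = FreeGroup.mk [a] * FreeGroup.mk L := by
      simp [FreeGroup.mul_mk]
    rw [this, _root_.map_mul, ih, List.map_cons, List.sum_cons, ofAdd_add]
    congr 1
    obtain ⟨x, b⟩ := a
    cases b
    · simp only [bd, FreeGroup.lift_mk, List.map_cons, List.map_nil, cond_false,
        List.prod_cons, List.prod_nil, mul_one]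
      rw [← ofAdd_neg]
      congr 1
      simp
    · simp [bd, FreeGroup.lift_mk]

lemma B_walk {V : Type*} (H : SimpleGraph V) [LinearOrder V] (B : FreeGroup (Ed H) → ℤ)
    (hB : ∀ w y : FreeGroup (Ed H), y.norm = 1 → |B (w * y) - B w| = 1) {a b : V}
    (p : H.Walk a b) : ∀ w, ∃ j : ℤ, |j| ≤ p.length ∧ Even (j - p.length) ∧
      B (w * wl H p) = B w + j := by
  induction p with
  | nil => intro w; exact ⟨0, by simp, by simp, by simp⟩
  | cons h p ih =>
    intro w
    obtain ⟨j, h1, h2, h3⟩ := ih (w * lab H _ _)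
    have h4 := hB w _ (lab_norm H h)
    rw [wl_cons, ← mul_assoc, h3, Walk.length_cons]
    push_cast
    rcases (abs_eq (by norm_num : (0 : ℤ) ≤ 1)).1 h4 with h5 | h5
    · refine ⟨j + 1, ?_, ?_, by linarith⟩
      · have := abs_add_le j 1
        rw [abs_one] at this
        linarith
      · have : j + 1 - ((p.length : ℤ) + 1) = j - p.length := by ring
        rw [this]; exact h2
    · refine ⟨j - 1, ?_, ?_, by linarith⟩
      · have := abs_sub j 1
        rw [abs_one] at this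
        linarith
      · have : j - 1 - ((p.length : ℤ) + 1) = (j - p.length) - 2 := by ring
        rw [this]; exact h2.sub (by decide)

/-- a map from the integers whose differences are walks of length `ρ` gives a homomorphism to an
edge, or to a power of an odd cycle which is not shorter than the odd girth -/
lemma to_cycle {V : Type*} (H : SimpleGraph V) (ρ : ℕ) (hρ : Odd ρ)
    (hE : ∀ (v : V) (p : H.Walk v v), p.IsCycle → Even p.length → 4 * ρ < p.length)
    (m : ℕ) (hmρ : 2 * ρ < m) (hlow : ∀ (v : V) (p : H.Walk v v), Odd p.length → m ≤ p.length)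
    (c : ℤ → V) (S : Set ℤ)
    (hc : ∀ x, ∀ s ∈ S, ∃ p : H.Walk (c x) (c (x + s)), p.length = ρ) :
    ∃ M : ℕ, (M = 2 ∨ (Odd M ∧ m ≤ M)) ∧
      ∃ U : ℤ → ZMod M, ∀ x, ∀ s ∈ S, ∃ j : ℤ, Odd j ∧ |j| ≤ ρ ∧ U (x + s) = U x + j := by
  classical
  let _ : LinearOrder V := linearOrderOfSTO (WellOrderingRel (α := V))
  obtain ⟨g, hg, hmain⟩ := plabelling H ρ hE
    (fun v p hp => lt_of_lt_of_le hmρ (hlow v p hp)) c S hc
  have hρ' : Odd (ρ : ℤ) := by exact_mod_cast hρ
  by_cases hpar : par (Ed H) g = 1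
  · refine ⟨2, Or.inl rfl, ?_⟩
    have hparw : ∀ {a b : V} (p : H.Walk a b),
        Multiplicative.toAdd (par (Ed H) (wl H p)) = ((p.length : ℕ) : ZMod 2) := by
      intro a b p
      induction p with
      | nil => simp
      | cons h p ih =>
        rw [wl_cons, _root_.map_mul, toAdd_mul, ih, par_norm, lab_norm H h, toAdd_ofAdd,
          Walk.length_cons]
        push_cast
        ring
    refine hmain 2 (fun w => Multiplicative.toAdd (par (Ed H) w)) ?_ ?_
    · intro w
      rw [_root_.map_mul, hpar, one_mul]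
    · intro w a b p hp
      refine ⟨ρ, hρ', by simp, ?_⟩
      rw [_root_.map_mul, toAdd_mul, hparw, hp]
      simp
  · obtain ⟨h, L, B, hgL, hB1, hB2⟩ := busemann g
    have hodd : Odd L.length := by
      rw [← Nat.not_even_iff_odd]
      intro hev
      apply hpar
      rw [hgL, _root_.map_mul, _root_.map_mul, _root_.map_inv, mul_comm (par (Ed H) h), mul_assoc,
        mul_inv_cancel, mul_one, par_mk]
      have : ((L.length : ℕ) : ZMod 2) = 0 := by
        rw [ZMod.natCast_eq_zero_iff]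
        exact hev.two_dvd
      rw [this]
      rfl
    have hm : m ≤ L.length := by
      have hbd : ∀ φ : V → ℤ, bd H φ (FreeGroup.mk L) = 1 := by
        intro φ
        have := hg φ
        rwa [hgL, _root_.map_mul, _root_.map_mul, _root_.map_inv, mul_comm (bd H φ h), mul_assoc,
          mul_inv_cancel, mul_one] at this
      obtain ⟨v, q, hq1, hq2⟩ := euler H L.length
        (L.map (fun e => (if e.2 then (e.1.1.1, e.1.1.2) else (e.1.1.2, e.1.1.1) : V × V)))
        (by simp) (by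
          intro d hd
          obtain ⟨e, _, rfl⟩ := List.mem_map.1 hd
          split
          · exact e.1.2.1
          · exact e.1.2.1.symm) (c 0) (c 0) Walk.nil (by
          intro φ
          have h1 := hbd φ
          rw [bd_mk] at h1
          have h2 : Multiplicative.toAdd _ = Multiplicative.toAdd (1 : Multiplicative ℤ) :=
            congrArg _ h1
          rw [toAdd_ofAdd, toAdd_one] at h2
          rw [List.map_map, sub_self]
          exact h2) (by simpa using hodd)
      have := hlow v q hq1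
      simp only [Walk.length_nil, add_zero] at hq2
      omega
    refine ⟨L.length, Or.inr ⟨hodd, hm⟩, hmain L.length (fun w => ((B w : ℤ) : ZMod L.length)) ?_ ?_⟩
    · intro w
      rw [hB2]
      push_cast
      simp
    · intro w a b p hp
      obtain ⟨j, h1, h2, h3⟩ := B_walk H B hB1 p w
      rw [hp] at h1 h2
      refine ⟨j, ?_, h1, ?_⟩
      · have : j = (j - ρ) + ρ := by ring
        rw [this]
        exact h2.add_odd hρ'
      · rw [h3]
        push_cast
        rfl

lemma norm_small {r : ℝ} (h0 : 0 ≤ r) (h1 : r ≤ 1 / 2) : ‖((r : ℝ) : UnitAddCircle)‖ = r := by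
  rw [UnitAddCircle.norm_eq, abs_sub_round_eq_min]
  have : Int.fract r = r := Int.fract_eq_self.2 ⟨h0, by linarith⟩
  rw [this]
  exact min_eq_left (by linarith)

lemma norm_half {t : ℝ} (ht : |t| ≤ 1 / 2) : ‖((1 / 2 - t : ℝ) : UnitAddCircle)‖ = 1 / 2 - |t| := by
  rcases le_total 0 t with h | h
  · rw [abs_of_nonneg h] at ht ⊢
    exact norm_small (by linarith) (by linarith)
  · rw [abs_of_nonpos h] at ht ⊢
    have e : ((1 / 2 - t : ℝ) : UnitAddCircle) = -((1 / 2 + t : ℝ) : UnitAddCircle) := by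
      rw [← AddCircle.coe_neg, eq_comm, ← sub_eq_zero, ← AddCircle.coe_sub]
      have : (-(1 / 2 + t) - (1 / 2 - t) : ℝ) = ((-1 : ℤ) : ℝ) := by push_cast; ring
      rw [this]
      rw [AddCircle.coe_eq_zero_iff]
      exact ⟨-1, by simp⟩
    rw [e, norm_neg, norm_small (by linarith) (by linarith)]
    ring

lemma coe_int_add (i : ℤ) (t : ℝ) : (((i : ℝ) + t : ℝ) : UnitAddCircle) = (t : UnitAddCircle) := by
  rw [AddCircle.coe_add]
  have : ((i : ℝ) : UnitAddCircle) = 0 := by
    rw [AddCircle.coe_eq_zero_iff]; exact ⟨i, by simp⟩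
  rw [this, zero_add]

/-- homomorphism to a power of a cycle gives a circular colouring -/
lemma circ_of_cycle (M : ℕ) (ρ m : ℕ) (hmρ : 2 * ρ < m) (hM : M = 2 ∨ (Odd M ∧ m ≤ M)) (S : Set ℤ)
    (U : ℤ → ZMod M)
    (hU : ∀ x, ∀ s ∈ S, ∃ j : ℤ, Odd j ∧ |j| ≤ ρ ∧ U (x + s) = U x + j) :
    ∃ c : ℤ → UnitAddCircle, ∀ x, ∀ s ∈ S, 1 / 2 - ρ / (2 * m : ℝ) ≤ ‖c (x + s) - c x‖ := by
  have hm0 : (0 : ℝ) < m := by exact_mod_cast (by omega : 0 < m)
  have hρ0 : (0 : ℝ) ≤ ρ / (2 * m : ℝ) := by positivity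
  rcases hM with rfl | ⟨⟨k, hk⟩, hmM⟩
  · refine ⟨fun x => ZMod.toAddCircle (U x), fun x s hs => ?_⟩
    obtain ⟨j, ⟨i, hi⟩, -, hj⟩ := hU x s hs
    simp only
    rw [hj, map_add, add_sub_cancel_left, ZMod.toAddCircle_intCast, hi]
    have : (((2 * i + 1 : ℤ) : ℝ) / ((2 : ℕ) : ℝ) : ℝ) = (i : ℝ) + (1 / 2 - 0) := by
      push_cast; ring
    rw [this, coe_int_add, norm_half (by norm_num)]
    simp only [abs_zero, sub_zero]
    linarith
  · have hM0 : M ≠ 0 := by omega
    have : NeZero M := ⟨hM0⟩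
    have hM0' : (0 : ℝ) < M := by exact_mod_cast Nat.pos_of_ne_zero hM0
    refine ⟨fun x => k • ZMod.toAddCircle (U x), fun x s hs => ?_⟩
    obtain ⟨j, ⟨i, hi⟩, hjρ, hj⟩ := hU x s hs
    simp only
    have h1 : k • ZMod.toAddCircle ((j : ℤ) : ZMod M) =
        (((i : ℝ) + (1 / 2 - j / (2 * M)) : ℝ) : UnitAddCircle) := by
      rw [ZMod.toAddCircle_intCast, ← AddCircle.coe_nsmul]
      congr 1
      rw [nsmul_eq_mul]
      have e1 : (M : ℝ) = 2 * k + 1 := by rw [hk]; push_cast; ring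
      have e2 : (k : ℝ) = (M - 1) / 2 := by linarith
      have e3 : (i : ℝ) = (j - 1) / 2 := by rw [hi]; push_cast; ring
      rw [e2, e3]
      field_simp
      ring
    have hjρ' : |(j : ℝ)| ≤ ρ := by exact_mod_cast hjρ
    have hmM' : (m : ℝ) ≤ M := by exact_mod_cast hmM
    have hmρ' : (2 : ℝ) * ρ < m := by exact_mod_cast hmρ
    have h2 : |(j : ℝ) / (2 * M)| ≤ ρ / (2 * m) := by
      rw [abs_div, abs_of_pos (by positivity : (0 : ℝ) < 2 * M)]
      exact div_le_div₀ (by positivity) hjρ' (by positivity) (by linarith)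
    have h3 : (ρ : ℝ) / (2 * m) ≤ 1 / 2 := by
      rw [div_le_iff₀ (by positivity)]
      nlinarith
    rw [hj, map_add, smul_add, add_sub_cancel_left, h1, coe_int_add, norm_half (h2.trans h3)]
    linarith

lemma forward {V : Type*} (H : SimpleGraph V) (ρ : ℕ) (hρ : Odd ρ)
    (hE : ∀ (v : V) (p : H.Walk v v), p.IsCycle → Even p.length → 4 * ρ < p.length)
    (m : ℕ) (hmρ : 2 * ρ < m) (hlow : ∀ (v : V) (p : H.Walk v v), Odd p.length → m ≤ p.length)
    (S : Set ℕ) (f : ℤ → V)
    (hf : ∀ x : ℤ, ∀ s ∈ S, ∃ p : H.Walk (f x) (f (x + s)), p.length = ρ) :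
    ∃ β : UnitAddCircle, ∀ s ∈ S, 1 / 2 - ρ / (2 * m : ℝ) ≤ ‖s • β‖ := by
  obtain ⟨M, hM, U, hU⟩ := to_cycle H ρ hρ hE m hmρ hlow f ((fun n : ℕ => (n : ℤ)) '' S) (by
    rintro x _ ⟨s, hs, rfl⟩
    exact hf x s hs)
  obtain ⟨c, hc⟩ := circ_of_cycle M ρ m hmρ hM _ U hU
  have hm0 : (0 : ℝ) < m := by exact_mod_cast (by omega : 0 < m)
  have hmρ' : (2 : ℝ) * ρ < m := by exact_mod_cast hmρ
  have h14 : (1 : ℝ) / 4 < 1 / 2 - ρ / (2 * m : ℝ) := by
    have : (ρ : ℝ) / (2 * m) < 1 / 4 := by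
      rw [div_lt_iff₀ (by positivity)]
      linarith
    linarith
  exact (((Pool.Agent.Results.MP_cbd4b2_an.ThreeColours.result S).1 _ h14).1
    ⟨c, fun x s hs => hc x s ⟨s, hs, rfl⟩⟩)

end Pool.Agent.SqFree
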